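import Pool.Agent.H447.QR.Stm

/-!
# QR, tasks IZ and EF
-/

set_option autoImplicit false

namespace Pool.Agent.H241.QR.IZ

open Pool.Agent.H447.QR WeierstrassCurve

section IntPrim

open Encodable

theorem encode_int_ofNat (n : ℕ) : encode (n : ℤ) = 2 * n := rfl
theorem encode_int_negSucc (n : ℕ) : encode (Int.negSucc n) = 2 * n + 1 := rfl

theorem prim_toNat : Primrec Int.toNat := by
  have h : Primrec (fun n : ℕ => if n % 2 = 0 then n / 2 else 0) := by
    refine Primrec.ite ?_ ?_ (Primrec.const 0)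
    · exact Primrec.eq.comp (Primrec.nat_mod.comp Primrec.id (Primrec.const 2)) (Primrec.const 0)
    · exact Primrec.nat_div.comp Primrec.id (Primrec.const 2)
  refine (h.comp Primrec.encode).of_eq fun z => ?_
  cases z with
  | ofNat n =>
    show (if (encode (n : ℤ)) % 2 = 0 then (encode (n : ℤ)) / 2 else 0) = n
    rw [encode_int_ofNat, if_pos (by omega)]; omega
  | negSucc n =>
    show (if (encode (Int.negSucc n)) % 2 = 0 then (encode (Int.negSucc n)) / 2 else 0) = 0
    rw [encode_int_negSucc, if_neg (by omega)]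

theorem prim_toNat_neg : Primrec (fun z : ℤ => (-z).toNat) := by
  have h : Primrec (fun n : ℕ => if n % 2 = 0 then 0 else n / 2 + 1) := by
    refine Primrec.ite ?_ (Primrec.const 0) ?_
    · exact Primrec.eq.comp (Primrec.nat_mod.comp Primrec.id (Primrec.const 2)) (Primrec.const 0)
    · exact Primrec.succ.comp (Primrec.nat_div.comp Primrec.id (Primrec.const 2))
  refine (h.comp Primrec.encode).of_eq fun z => ?_
  cases z with
  | ofNat n =>
    show (if (encode (n : ℤ)) % 2 = 0 then 0 else (encode (n : ℤ)) / 2 + 1) = (-(n:ℤ)).toNat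
    rw [encode_int_ofNat, if_pos (by omega)]; omega
  | negSucc n =>
    show (if (encode (Int.negSucc n)) % 2 = 0 then 0 else (encode (Int.negSucc n)) / 2 + 1) =
      (-(Int.negSucc n)).toNat
    rw [encode_int_negSucc, if_neg (by omega)]
    rw [Int.neg_negSucc]
    simp
    omega

theorem prim_natSub : Primrec₂ (fun p q : ℕ => (p : ℤ) - (q : ℤ)) := by
  have h : Primrec₂ (fun p q : ℕ => if q ≤ p then 2 * (p - q) else 2 * (q - p) - 1) := by
    refine Primrec.ite ?_ ?_ ?_
    · exact Primrec.nat_le.comp Primrec.snd Primrec.fst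
    · exact Primrec.nat_mul.comp (Primrec.const 2) (Primrec.nat_sub.comp Primrec.fst Primrec.snd)
    · exact Primrec.nat_sub.comp (Primrec.nat_mul.comp (Primrec.const 2)
        (Primrec.nat_sub.comp Primrec.snd Primrec.fst)) (Primrec.const 1)
  refine Primrec.encode_iff.1 (Primrec.of_eq (α := ℕ × ℕ) h fun a => ?_)
  obtain ⟨p, q⟩ := a
  show (if q ≤ p then 2 * (p - q) else 2 * (q - p) - 1) = encode ((p : ℤ) - (q : ℤ))
  split_ifs with hq
  · have : (p : ℤ) - q = ((p - q : ℕ) : ℤ) := by omega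
    rw [this, encode_int_ofNat]
  · have : (p : ℤ) - q = Int.negSucc (q - p - 1) := by
      rw [Int.negSucc_eq]; omega
    rw [this, encode_int_negSucc]; omega

theorem prim_natCast : Primrec (fun p : ℕ => (p : ℤ)) := by
  refine (prim_natSub.comp Primrec.id (Primrec.const 0)).of_eq fun n => ?_
  simp

theorem prim_int_of_parts (f : ℤ → ℤ → ℤ) (P N : ℕ → ℕ → ℕ → ℕ → ℕ)
    (hP : Primrec (fun a : (ℕ × ℕ) × (ℕ × ℕ) => P a.1.1 a.1.2 a.2.1 a.2.2))
    (hN : Primrec (fun a : (ℕ × ℕ) × (ℕ × ℕ) => N a.1.1 a.1.2 a.2.1 a.2.2))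
    (h : ∀ x y, f x y = (P x.toNat (-x).toNat y.toNat (-y).toNat : ℤ) -
      (N x.toNat (-x).toNat y.toNat (-y).toNat : ℤ)) : Primrec₂ f := by
  have hx : Primrec (fun a : ℤ × ℤ => ((a.1.toNat, (-a.1).toNat), (a.2.toNat, (-a.2).toNat))) :=
    Primrec.pair (Primrec.pair (prim_toNat.comp Primrec.fst) (prim_toNat_neg.comp Primrec.fst))
      (Primrec.pair (prim_toNat.comp Primrec.snd) (prim_toNat_neg.comp Primrec.snd))
  refine (prim_natSub.comp (hP.comp hx) (hN.comp hx)).of_eq fun a => ?_
  exact (h a.1 a.2).symm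

theorem prim_int_add : Primrec₂ (fun x y : ℤ => x + y) := by
  refine prim_int_of_parts _ (fun a b c d => a + c) (fun a b c d => b + d) ?_ ?_ ?_
  · exact Primrec.nat_add.comp (Primrec.fst.comp Primrec.fst) (Primrec.fst.comp Primrec.snd)
  · exact Primrec.nat_add.comp (Primrec.snd.comp Primrec.fst) (Primrec.snd.comp Primrec.snd)
  · intro x y; push_cast; omega

theorem prim_int_neg : Primrec (fun x : ℤ => - x) := by
  have h : Primrec₂ (fun x _y : ℤ => - x) := by
    refine prim_int_of_parts _ (fun a b c d => b) (fun a b c d => a) ?_ ?_ ?_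
    · exact (Primrec.snd.comp Primrec.fst)
    · exact (Primrec.fst.comp Primrec.fst)
    · intro x y; omega
  exact h.comp Primrec.id Primrec.id

theorem prim_int_sub : Primrec₂ (fun x y : ℤ => x - y) := by
  refine prim_int_of_parts _ (fun a b c d => a + d) (fun a b c d => b + c) ?_ ?_ ?_
  · exact Primrec.nat_add.comp (Primrec.fst.comp Primrec.fst) (Primrec.snd.comp Primrec.snd)
  · exact Primrec.nat_add.comp (Primrec.snd.comp Primrec.fst) (Primrec.fst.comp Primrec.snd)
  · intro x y; push_cast; omega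

theorem prim_int_mul : Primrec₂ (fun x y : ℤ => x * y) := by
  refine prim_int_of_parts _ (fun a b c d => a * c + b * d) (fun a b c d => a * d + b * c) ?_ ?_ ?_
  · exact Primrec.nat_add.comp
      (Primrec.nat_mul.comp (Primrec.fst.comp Primrec.fst) (Primrec.fst.comp Primrec.snd))
      (Primrec.nat_mul.comp (Primrec.snd.comp Primrec.fst) (Primrec.snd.comp Primrec.snd))
  · exact Primrec.nat_add.comp
      (Primrec.nat_mul.comp (Primrec.fst.comp Primrec.fst) (Primrec.snd.comp Primrec.snd))
      (Primrec.nat_mul.comp (Primrec.snd.comp Primrec.fst) (Primrec.fst.comp Primrec.snd))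
  · intro x y
    push_cast
    have hx : x = (x.toNat : ℤ) - ((-x).toNat : ℤ) := by omega
    have hy : y = (y.toNat : ℤ) - ((-y).toNat : ℤ) := by omega
    generalize (x.toNat : ℤ) = a at *
    generalize ((-x).toNat : ℤ) = b at *
    generalize (y.toNat : ℤ) = c at *
    generalize ((-y).toNat : ℤ) = d at *
    rw [hx, hy]
    ring

theorem prim_int_le : PrimrecRel (fun x y : ℤ => x ≤ y) := by
  have h : PrimrecRel (fun x y : ℤ => x.toNat + (-y).toNat ≤ (-x).toNat + y.toNat) := by
    exact Primrec.nat_le.comp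
      (Primrec.nat_add.comp (prim_toNat.comp Primrec.fst) (prim_toNat_neg.comp Primrec.snd))
      (Primrec.nat_add.comp (prim_toNat_neg.comp Primrec.fst) (prim_toNat.comp Primrec.snd))
  refine h.of_eq fun x y => ?_
  omega

theorem prim_int_lt : PrimrecRel (fun x y : ℤ => x < y) := by
  refine (prim_int_le.comp (prim_int_add.comp Primrec.fst (Primrec.const 1)) Primrec.snd).of_eq
    fun x => ?_
  omega



end IntPrim

section comb

variable {α : Type} [Primcodable α]

theorem pa {f g : α → ℤ} (hf : Primrec f) (hg : Primrec g) : Primrec (fun x => f x + g x) :=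
  prim_int_add.comp hf hg

theorem ps {f g : α → ℤ} (hf : Primrec f) (hg : Primrec g) : Primrec (fun x => f x - g x) :=
  prim_int_sub.comp hf hg

theorem pm {f g : α → ℤ} (hf : Primrec f) (hg : Primrec g) : Primrec (fun x => f x * g x) :=
  prim_int_mul.comp hf hg

theorem pn {f : α → ℤ} (hf : Primrec f) : Primrec (fun x => - f x) :=
  prim_int_neg.comp hf

theorem p2 {f : α → ℤ} (hf : Primrec f) : Primrec (fun x => f x ^ 2) :=
  (pm hf hf).of_eq fun x => by ring

theorem p3 {f : α → ℤ} (hf : Primrec f) : Primrec (fun x => f x ^ 3) :=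
  (pm (p2 hf) hf).of_eq fun x => by ring

theorem pc (c : ℤ) : Primrec (fun _ : α => c) := Primrec.const c

end comb

theorem tA : Primrec (fun t : T5 => t.1) := Primrec.fst
theorem tB : Primrec (fun t : T5 => t.2.1) := Primrec.fst.comp Primrec.snd
theorem tC : Primrec (fun t : T5 => t.2.2.1) := Primrec.fst.comp (Primrec.snd.comp Primrec.snd)
theorem tD : Primrec (fun t : T5 => t.2.2.2.1) :=
  Primrec.fst.comp (Primrec.snd.comp (Primrec.snd.comp Primrec.snd))
theorem tE : Primrec (fun t : T5 => t.2.2.2.2) :=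
  Primrec.snd.comp (Primrec.snd.comp (Primrec.snd.comp Primrec.snd))

theorem prim_I : Primrec (fun t : T5 => (ofT t).I) :=
  pa (ps (pm (pm (pc 12) tA) tE) (pm (pm (pc 3) tB) tD)) (p2 tC)

theorem prim_J : Primrec (fun t : T5 => (ofT t).J) :=
  ps (ps (ps (pa (pm (pm (pm (pc 72) tA) tC) tE) (pm (pm (pm (pc 9) tB) tC) tD))
    (pm (pm (pc 27) tA) (p2 tD))) (pm (pm (pc 27) tE) (p2 tB))) (pm (pc 2) (p3 tC))

theorem prim_disc : PrimrecPred (fun t : T5 => 4 * (ofT t).I ^ 3 ≠ (ofT t).J ^ 2) :=
  (Primrec.eq.comp (pm (pc 4) (p3 prim_I)) (p2 prim_J)).not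

/-- the coefficient list of `y² - g (x, 1)` -/
def lst (t : T5) : List (List ℤ) :=
  [[-t.2.2.2.2, 0, 1], [-t.2.2.2.1], [-t.2.2.1], [-t.2.1], [-t.1]]

theorem prim_sing {α : Type} [Primcodable α] {f : α → ℤ} (hf : Primrec f) :
    Primrec (fun x => [f x]) :=
  Primrec.list_cons.comp hf (Primrec.const [])

theorem prim_lst : Primrec lst :=
  Primrec.list_cons.comp (Primrec.list_cons.comp (pn tE) (Primrec.const [0, 1]))
    (Primrec.list_cons.comp (prim_sing (pn tD)) (Primrec.list_cons.comp (prim_sing (pn tC))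
      (Primrec.list_cons.comp (prim_sing (pn tB)) (Primrec.list_cons.comp (prim_sing (pn tA))
        (Primrec.const [])))))

theorem infZ_lst (t : T5) : InfZ (lst t) ↔ InfC (ofT t).q := by
  unfold InfZ InfC
  have h : {p : ℚ × ℚ | ∑ i ∈ Finset.range (lst t).length,
      ∑ j ∈ Finset.range ((lst t).getD i []).length,
        ((((lst t).getD i []).getD j 0 : ℤ) : ℚ) * p.1 ^ i * p.2 ^ j = 0} =
      {p : ℚ × ℚ | p.2 ^ 2 = (ofT t).q.v p.1 1} := by
    ext p
    simp only [Set.mem_ofPred_eq]
    have e : ∑ i ∈ Finset.range (lst t).length,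
      ∑ j ∈ Finset.range ((lst t).getD i []).length,
        ((((lst t).getD i []).getD j 0 : ℤ) : ℚ) * p.1 ^ i * p.2 ^ j =
        p.2 ^ 2 - (ofT t).q.v p.1 1 := by
      unfold lst ofT Qf.q Qf.v
      simp [Finset.sum_range_succ]
      ring
    rw [e, sub_eq_zero]
  rw [h]

theorem t_IZ : S_IZ := by
  intro h
  obtain ⟨hd, hc⟩ := h
  obtain ⟨hd', hp⟩ := prim_disc
  have h1 : Computable (fun t : T5 => decide (InfZ (lst t))) := hc.comp prim_lst.to_comp
  have h2 : Computable (fun t : T5 =>
      (decide (4 * (ofT t).I ^ 3 ≠ (ofT t).J ^ 2) && decide (InfZ (lst t)))) :=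
    (Primrec.and.to_comp).comp hp.to_comp h1
  classical
  refine ⟨Classical.decPred _, h2.of_eq fun t => ?_⟩
  rw [Bool.eq_iff_iff]
  simp only [Bool.and_eq_true, decide_eq_true_eq]
  unfold QInf
  rw [infZ_lst]

theorem t_EF : S_EF := by
  intro a b hab
  have hq : QInf (0, 1, 0, a, b) ↔ InfC (ofT (0, 1, 0, a, b)).q := by
    unfold QInf
    refine and_iff_right ?_
    intro h
    apply hab
    unfold ofT Qf.I Qf.J at h
    simp only [] at h
    linarith
  rw [hq]
  unfold InfC
  have hS : {p : ℚ × ℚ | p.2 ^ 2 = (ofT (0, 1, 0, a, b)).q.v p.1 1} =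
      {p : ℚ × ℚ | (crv a b).toAffine.Equation p.1 p.2} := by
    ext p
    simp only [Set.mem_ofPred_eq]
    rw [Affine.equation_iff]
    unfold ofT Qf.q Qf.v
    simp
  rw [hS]
  have hΔ : (crv (a : ℚ) (b : ℚ)).toAffine.Δ ≠ 0 := by
    intro h
    apply hab
    have h1 : (-16 : ℚ) * (4 * a ^ 3 + 27 * b ^ 2) = 0 := by
      rw [← h]
      simp [WeierstrassCurve.Δ, WeierstrassCurve.b₂, WeierstrassCurve.b₄, WeierstrassCurve.b₆,
        WeierstrassCurve.b₈]
      ring
    have h2 : ((4 : ℚ) * a ^ 3 + 27 * b ^ 2) = 0 := by linarith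
    exact_mod_cast h2
  have hns : ∀ x y : ℚ, (crv (a : ℚ) (b : ℚ)).toAffine.Equation x y →
      (crv (a : ℚ) (b : ℚ)).toAffine.Nonsingular x y := fun x y h =>
    (Affine.equation_iff_nonsingular_of_Δ_ne_zero hΔ).1 h
  constructor
  · intro h
    have := h.to_subtype
    refine Infinite.of_injective (fun p : {p : ℚ × ℚ | (crv (a : ℚ) (b : ℚ)).toAffine.Equation p.1 p.2} =>
      (Affine.Point.some p.1.1 p.1.2 (hns _ _ p.2) : Pt (a : ℚ) (b : ℚ))) ?_
    intro p q hpq
    have h1 : p.1.1 = q.1.1 ∧ p.1.2 = q.1.2 := by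
      simpa using hpq
    exact Subtype.ext (Prod.ext h1.1 h1.2)
  · intro h hfin
    have := hfin.to_subtype
    let F : Pt (a : ℚ) (b : ℚ) →
        Option {p : ℚ × ℚ | (crv (a : ℚ) (b : ℚ)).toAffine.Equation p.1 p.2} := fun P =>
      match P with
      | .zero => none
      | .some x y h => some ⟨(x, y), h.1⟩
    have hF : Function.Injective F := by
      intro P Q hPQ
      cases P with
      | zero =>
        cases Q with
        | zero => rfl
        | some x' y' h' => simp [F] at hPQ
      | some x y h =>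
        cases Q with
        | zero => simp [F] at hPQ
        | some x' y' h' =>
          simp only [F, Option.some.injEq, Subtype.mk.injEq, Prod.mk.injEq] at hPQ
          obtain ⟨rfl, rfl⟩ := hPQ
          rfl
    have := Finite.of_injective F hF
    exact not_finite (Pt (a : ℚ) (b : ℚ))

end Pool.Agent.H241.QR.IZ
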